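import Pool.Agent.U398.MV.Stm5

/-!
Project MV5, package KM: moments of the fluctuations of window counts at the zeros.
-/

set_option autoImplicit false

namespace Pool.Agent.U608.MV5.KM

open MeasureTheory Filter Topology Set
open Pool.Agent.U398.MV

lemma Mf_up {s s' : ℝ} (hs : 0 < s) (h : s ≤ s') :
    Mf s' - Mf s ≤ (s' - s) / (2 * Real.pi) * Real.log (s' / (2 * Real.pi)) := by
  have hp := Real.pi_pos
  have hu : 0 < s / (2 * Real.pi) := by positivity
  have hu' : 0 < s' / (2 * Real.pi) := div_pos (by linarith) (by positivity)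
  have e : (s' - s) / (2 * Real.pi) = s' / (2 * Real.pi) - s / (2 * Real.pi) := by ring
  unfold Mf
  rw [e]
  set u := s / (2 * Real.pi)
  set u' := s' / (2 * Real.pi)
  have h1 : Real.log (u' / u) ≤ u' / u - 1 := Real.log_le_sub_one_of_pos (by positivity)
  rw [Real.log_div hu'.ne' hu.ne'] at h1
  have h2 : u * (Real.log u' - Real.log u) ≤ u' - u := by
    calc u * (Real.log u' - Real.log u) ≤ u * (u' / u - 1) := mul_le_mul_of_nonneg_left h1 hu.le
      _ = u' - u := by field_simp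
  nlinarith [h2]

lemma Mf_lo {s s' : ℝ} (hs : 2 * Real.pi ≤ s) (h : s ≤ s') : 0 ≤ Mf s' - Mf s := by
  have hp := Real.pi_pos
  have hs0 : 0 < s := by linarith
  have hu : 1 ≤ s / (2 * Real.pi) := by rwa [le_div_iff₀ (by positivity), one_mul]
  have hu' : 1 ≤ s' / (2 * Real.pi) := by
    rw [le_div_iff₀ (by positivity), one_mul]; linarith
  have huu : s / (2 * Real.pi) ≤ s' / (2 * Real.pi) := by gcongr
  unfold Mf
  set u := s / (2 * Real.pi)
  set u' := s' / (2 * Real.pi)
  have hu0 : 0 < u := by linarith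
  have hu0' : 0 < u' := by linarith
  have h1 : Real.log (u / u') ≤ u / u' - 1 := Real.log_le_sub_one_of_pos (by positivity)
  rw [Real.log_div hu0.ne' hu0'.ne'] at h1
  have h2 : u' * (Real.log u - Real.log u') ≤ u - u' := by
    calc u' * (Real.log u - Real.log u') ≤ u' * (u / u' - 1) :=
          mul_le_mul_of_nonneg_left h1 hu0'.le
      _ = u - u' := by field_simp
  have h3 : 0 ≤ Real.log u := Real.log_nonneg hu
  nlinarith [mul_nonneg (sub_nonneg.2 huu) h3]

lemma Mf_inc {T s s' : ℝ} (hT : 10 ≤ T) (hs : 2 * Real.pi ≤ s) (h : s ≤ s') (h4 : s' ≤ 4 * T)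
    (hw : s' - s ≤ 2 * Real.pi / Real.log T) : |Mf s' - Mf s| ≤ 1 := by
  have hp := Real.pi_pos
  have hp3 := Real.pi_gt_three
  have hL : 0 < Real.log T := Real.log_pos (by linarith)
  rw [abs_of_nonneg (Mf_lo hs h)]
  refine (Mf_up (by linarith) h).trans ?_
  have h1 : Real.log (s' / (2 * Real.pi)) ≤ Real.log T := by
    apply Real.log_le_log (div_pos (by linarith) (by positivity))
    rw [div_le_iff₀ (by positivity)]
    nlinarith
  have h2 : (s' - s) / (2 * Real.pi) ≤ 1 / Real.log T := by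
    rw [div_le_iff₀ (by positivity)]
    calc s' - s ≤ 2 * Real.pi / Real.log T := hw
      _ = 1 / Real.log T * (2 * Real.pi) := by ring
  have h3 : 0 ≤ Real.log (s' / (2 * Real.pi)) := by
    apply Real.log_nonneg
    rw [le_div_iff₀ (by positivity), one_mul]
    linarith
  calc (s' - s) / (2 * Real.pi) * Real.log (s' / (2 * Real.pi)) ≤
        1 / Real.log T * Real.log T := mul_le_mul h2 h1 h3 (by positivity)
    _ = 1 := one_div_mul_cancel hL.ne'

lemma pow4 (n : ℕ) {a b c d : ℝ} (ha : 0 ≤ a) (hb : 0 ≤ b) (hc : 0 ≤ c) (hd : 0 ≤ d) :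
    (a + b + c + d) ^ n ≤ 4 ^ n * (a ^ n + b ^ n + c ^ n + d ^ n) := by
  have pa := pow_nonneg ha n
  have pb := pow_nonneg hb n
  have pc := pow_nonneg hc n
  have pd := pow_nonneg hd n
  obtain ⟨m, hm0, h1, h2, h3, h4, h5⟩ : ∃ m : ℝ, 0 ≤ m ∧ a ≤ m ∧ b ≤ m ∧ c ≤ m ∧ d ≤ m ∧
      m ^ n ≤ a ^ n + b ^ n + c ^ n + d ^ n := by
    rcases le_total a b with hab | hab <;> rcases le_total c d with hcd | hcd
    · rcases le_total b d with h | h
      · exact ⟨d, hd, by linarith, by linarith, by linarith, le_rfl, by linarith⟩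
      · exact ⟨b, hb, by linarith, by linarith, by linarith, by linarith, by linarith⟩
    · rcases le_total b c with h | h
      · exact ⟨c, hc, by linarith, by linarith, by linarith, by linarith, by linarith⟩
      · exact ⟨b, hb, by linarith, by linarith, by linarith, by linarith, by linarith⟩
    · rcases le_total a d with h | h
      · exact ⟨d, hd, by linarith, by linarith, by linarith, le_rfl, by linarith⟩
      · exact ⟨a, ha, by linarith, by linarith, by linarith, by linarith, by linarith⟩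
    · rcases le_total a c with h | h
      · exact ⟨c, hc, by linarith, by linarith, by linarith, by linarith, by linarith⟩
      · exact ⟨a, ha, by linarith, by linarith, by linarith, by linarith, by linarith⟩
  calc (a + b + c + d) ^ n ≤ (4 * m) ^ n := pow_le_pow_left₀ (by linarith) (by linarith) n
    _ = 4 ^ n * m ^ n := mul_pow _ _ _
    _ ≤ 4 ^ n * (a ^ n + b ^ n + c ^ n + d ^ n) := mul_le_mul_of_nonneg_left h5 (by positivity)

lemma sq4 (p q r s : ℝ) : (p + q + r + s) ^ 2 ≤ 4 * (p ^ 2 + q ^ 2 + r ^ 2 + s ^ 2) := by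
  nlinarith [sq_nonneg (p - q), sq_nonneg (p - r), sq_nonneg (p - s), sq_nonneg (q - r),
    sq_nonneg (q - s), sq_nonneg (r - s)]

lemma measurable_sg {N : ℝ → ℕ} (hN : Monotone N) : Measurable (sg N) := by
  have h1 : Measurable N := hN.measurable
  have h2 : Measurable fun t => (N t : ℝ) := (measurable_from_nat (f := fun n : ℕ => (n : ℝ))).comp h1
  have h3 : Measurable Mf := by
    unfold Mf
    fun_prop
  exact h2.sub h3

/-- the comparison at one point -/
lemma point {N : ℝ → ℕ} (hN : Monotone N) {T : ℝ} (hT : 40 ≤ T) (hw : 2 * Real.pi / Real.log T ≤ 7)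
    {γ t y : ℝ} (h1 : γ - 2 * Real.pi / Real.log T ≤ t) (h2 : t ≤ γ) (hγ1 : T < γ)
    (hγ2 : γ ≤ 2 * T) (hy : |y| ≤ 1) :
    |sg N (γ + y) - sg N (t + y)| ≤
      |sg N (t + (y + 2 * Real.pi / Real.log T)) - sg N (t + y)| + 2 := by
  have hp4 := Real.pi_lt_four
  have hw0 : 0 < 2 * Real.pi / Real.log T :=
    div_pos (by positivity) (Real.log_pos (by linarith))
  set w := 2 * Real.pi / Real.log T with hwdef
  obtain ⟨hy1, hy2⟩ := abs_le.1 hy
  have m1 : (N (t + y) : ℝ) ≤ N (γ + y) := by exact_mod_cast hN (by linarith)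
  have m2 : (N (γ + y) : ℝ) ≤ N (t + (y + w)) := by exact_mod_cast hN (by linarith)
  have i1 : |Mf (γ + y) - Mf (t + y)| ≤ 1 :=
    Mf_inc (T := T) (by linarith) (by linarith) (by linarith) (by linarith) (by linarith)
  have i2 : |Mf (t + (y + w)) - Mf (t + y)| ≤ 1 :=
    Mf_inc (T := T) (by linarith) (by linarith) (by linarith) (by linarith) (by linarith)
  have e1 : sg N (γ + y) - sg N (t + y) =
      ((N (γ + y) : ℝ) - N (t + y)) - (Mf (γ + y) - Mf (t + y)) := by unfold sg; ring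
  have e2 : (N (t + (y + w)) : ℝ) - N (t + y) =
      (sg N (t + (y + w)) - sg N (t + y)) + (Mf (t + (y + w)) - Mf (t + y)) := by unfold sg; ring
  have e3 := le_abs_self (sg N (t + (y + w)) - sg N (t + y))
  obtain ⟨a1, a2⟩ := abs_le.1 i1
  obtain ⟨b1, b2⟩ := abs_le.1 i2
  rw [e1, abs_le]
  have e4 := abs_nonneg (sg N (t + (y + w)) - sg N (t + y))
  constructor
  · linarith
  · linarith

theorem t_KM : J_KM := by
  intro hPU N g C1 hC1 hcnt hMom q
  obtain ⟨C3, T3, hC3, hT3, hpu⟩ := hPU N g C1 hcnt hMom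
  obtain ⟨C2, T2, hC2, hT2, hmom⟩ := hMom.1 (2 * q) 10
  set K1 : ℝ := 4 ^ (4 * q + 1) * (3 * (C2 * 4 ^ (2 * q)) + 8 ^ (2 * (2 * q)) * 3) with hK1
  have hK1pos : 0 < K1 := by positivity
  refine ⟨C3 * Real.sqrt K1, max 40 (max T2 T3), by positivity, (by norm_num : (10:ℝ) ≤ 40).trans
    (le_max_left _ _), ?_⟩
  intro T hT X x y hX hX1 hx hy
  have hT40 : 40 ≤ T := (le_max_left _ _).trans hT
  have hTT2 : T2 ≤ T := ((le_max_left _ _).trans (le_max_right _ _)).trans hT
  have hTT3 : T3 ≤ T := ((le_max_right _ _).trans (le_max_right _ _)).trans hT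
  have hp := Real.pi_pos
  have hp3 := Real.pi_gt_three
  have hp4 := Real.pi_lt_d2
  have hL1 : 1 ≤ Real.log T := by
    rw [Real.le_log_iff_exp_le (by linarith)]
    linarith [Real.exp_one_lt_d9]
  have hL0 : 0 < Real.log T := by linarith
  have hw7 : 2 * Real.pi / Real.log T ≤ 7 := by
    rw [div_le_iff₀ hL0]
    nlinarith
  have hw0 : 0 < 2 * Real.pi / Real.log T := by positivity
  set w := 2 * Real.pi / Real.log T with hwdef
  set L := Real.log T with hLdef
  have hx1 : |x| ≤ 1 := hx.trans hX1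
  have hy1 : |y| ≤ 1 := hy.trans hX1
  have hms := measurable_sg hcnt.mono
  have hXL : 1 ≤ X * L := by
    rw [div_le_iff₀ hL0] at hX
    exact hX
  set Q := 1 + Real.log (X * L) with hQ
  have hQ1 : 1 ≤ Q := by
    have := Real.log_nonneg hXL
    linarith
  -- the functions
  have hmD : ∀ a b : ℝ, Measurable fun t => sg N (t + a) - sg N (t + b) := fun a b =>
    (hms.comp (measurable_id.add_const a)).sub (hms.comp (measurable_id.add_const b))
  have hbD : ∀ a b : ℝ, |a| ≤ 10 → |b| ≤ 10 → ∀ t ∈ Icc (3 * T / 4) (3 * T),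
      |sg N (t + a) - sg N (t + b)| ≤ 2 * (C1 * Real.log (3 * T + 10)) := by
    intro a b ha hb t ht
    have one : ∀ s : ℝ, |s| ≤ 10 → |sg N (t + s)| ≤ C1 * Real.log (3 * T + 10) := by
      intro s hs
      obtain ⟨s1, s2⟩ := abs_le.1 hs
      have h10 : 10 ≤ t + s := by linarith [ht.1]
      refine (hcnt.rvm _ h10).trans ?_
      refine mul_le_mul_of_nonneg_left ?_ (by linarith)
      exact Real.log_le_log (by linarith) (by linarith [ht.2])
    calc |sg N (t + a) - sg N (t + b)| ≤ |sg N (t + a)| + |sg N (t + b)| := abs_sub _ _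
      _ ≤ 2 * (C1 * Real.log (3 * T + 10)) := by linarith [one a ha, one b hb]
  have hint : ∀ (a b : ℝ) (n : ℕ), |a| ≤ 10 → |b| ≤ 10 →
      IntegrableOn (fun t => (sg N (t + a) - sg N (t + b)) ^ n) (Icc (3 * T / 4) (3 * T)) := by
    intro a b n ha hb
    refine Measure.integrableOn_of_bounded (M := (2 * (C1 * Real.log (3 * T + 10))) ^ n)
      (by rw [Real.volume_Icc]; exact ENNReal.ofReal_ne_top)
      ((hmD a b).pow_const n).aestronglyMeasurable ?_
    rw [ae_restrict_iff' measurableSet_Icc]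
    refine Eventually.of_forall fun t ht => ?_
    rw [Real.norm_eq_abs, abs_pow]
    exact pow_le_pow_left₀ (abs_nonneg _) (hbD a b ha hb t ht) n
  have hyw : |y + w| ≤ 10 := by
    obtain ⟨h1, h2⟩ := abs_le.1 hy1
    rw [abs_le]; constructor <;> linarith
  have hxw : |x + w| ≤ 10 := by
    obtain ⟨h1, h2⟩ := abs_le.1 hx1
    rw [abs_le]; constructor <;> linarith
  have hx10 : |x| ≤ 10 := hx1.trans (by norm_num)
  have hy10 : |y| ≤ 10 := hy1.trans (by norm_num)
  set a : ℝ → ℝ := fun t => sg N (t + y) - sg N (t + x) with ha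
  set b : ℝ → ℝ := fun t => sg N (t + (y + w)) - sg N (t + y) with hb
  set c : ℝ → ℝ := fun t => sg N (t + (x + w)) - sg N (t + x) with hc
  set f : ℝ → ℝ := fun t => 4 ^ (2 * q) * (a t ^ (2 * q) + b t ^ (2 * q) + c t ^ (2 * q) +
    8 ^ (2 * q)) with hf
  have even : ∀ z : ℝ, 0 ≤ z ^ (2 * q) := fun z => by rw [pow_mul]; positivity
  have hf0 : ∀ t, 0 ≤ f t := fun t => by
    have h1 := even (a t)
    have h2 := even (b t)
    have h3 := even (c t)
    positivity
  have hfm : Measurable f :=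
    ((((((hmD y x).pow_const _).add ((hmD (y + w) y).pow_const _)).add
      ((hmD (x + w) x).pow_const _)).add_const _).const_mul _)
  have hcon : ∀ r : ℝ, IntegrableOn (fun _ : ℝ => r) (Icc (3 * T / 4) (3 * T)) := fun r =>
    integrableOn_const (by rw [Real.volume_Icc]; exact ENNReal.ofReal_ne_top)
  have hfi : IntegrableOn f (Icc (3 * T / 4) (3 * T)) :=
    ((((hint y x _ hy10 hx10).add (hint (y + w) y _ hyw hy10)).add
      (hint (x + w) x _ hxw hx10)).add (hcon _)).const_mul _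
  -- the bound of the square
  set F : ℝ → ℝ := fun t => 4 ^ (4 * q + 1) * (a t ^ (2 * (2 * q)) + b t ^ (2 * (2 * q)) +
    c t ^ (2 * (2 * q)) + 8 ^ (2 * (2 * q))) with hF
  have hfF : ∀ t, f t ^ 2 ≤ F t := by
    intro t
    have h1 := sq4 (a t ^ (2 * q)) (b t ^ (2 * q)) (c t ^ (2 * q)) (8 ^ (2 * q))
    have e : ∀ z : ℝ, (z ^ (2 * q)) ^ 2 = z ^ (2 * (2 * q)) := fun z => by
      rw [← pow_mul]; congr 1; ring
    rw [e, e, e, e] at h1
    have e2 : ((4:ℝ) ^ (2 * q)) ^ 2 * 4 = 4 ^ (4 * q + 1) := by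
      rw [← pow_mul, ← pow_succ]; congr 1; ring
    calc f t ^ 2 = (4 ^ (2 * q)) ^ 2 * (a t ^ (2 * q) + b t ^ (2 * q) + c t ^ (2 * q) +
          8 ^ (2 * q)) ^ 2 := by rw [hf]; ring
      _ ≤ (4 ^ (2 * q)) ^ 2 * (4 * (a t ^ (2 * (2 * q)) + b t ^ (2 * (2 * q)) +
          c t ^ (2 * (2 * q)) + 8 ^ (2 * (2 * q)))) := mul_le_mul_of_nonneg_left h1 (by positivity)
      _ = F t := by rw [hF]; simp only; rw [← e2]; ring
  have ia := hint y x (2 * (2 * q)) hy10 hx10
  have ib := hint (y + w) y (2 * (2 * q)) hyw hy10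
  have ic := hint (x + w) x (2 * (2 * q)) hxw hx10
  have hFi : IntegrableOn F (Icc (3 * T / 4) (3 * T)) :=
    (((ia.add ib).add ic).add (hcon _)).const_mul _
  have hf2i : IntegrableOn (fun t => f t ^ 2) (Icc (3 * T / 4) (3 * T)) := by
    refine Integrable.mono' hFi (hfm.pow_const 2).aestronglyMeasurable ?_
    refine Eventually.of_forall fun t => ?_
    rw [Real.norm_of_nonneg (sq_nonneg _)]
    exact hfF t
  have h34 : 3 * T / 4 ≤ 3 * T := by linarith
  have toII : ∀ {h : ℝ → ℝ}, IntegrableOn h (Icc (3 * T / 4) (3 * T)) →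
      IntervalIntegrable h volume (3 * T / 4) (3 * T) := fun hh =>
    (intervalIntegrable_iff_integrableOn_Icc_of_le h34).2 hh
  -- the moments
  have m1 : ∫ t in (3 * T / 4)..(3 * T), a t ^ (2 * (2 * q)) ≤ C2 * T * (4 * Q) ^ (2 * q) := by
    refine (hmom T hTT2 y x hy10 hx10).trans ?_
    have hd : |y - x| ≤ 2 * X := (abs_sub _ _).trans (by linarith)
    have h0 : 0 ≤ |y - x| * L := by positivity
    have h1 : Real.log (1 + |y - x| * L) ≤ 2 + Real.log (X * L) := by
      have h2 : 1 + |y - x| * L ≤ 3 * (X * L) := by nlinarith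
      refine (Real.log_le_log (by linarith) h2).trans ?_
      rw [Real.log_mul (by norm_num) (by positivity)]
      have h3 : Real.log 3 ≤ 3 - 1 := Real.log_le_sub_one_of_pos (by norm_num)
      linarith
    have h5 : 0 ≤ Real.log (1 + |y - x| * L) := Real.log_nonneg (by linarith)
    have h6 : (1 + Real.log (1 + |y - x| * L)) ^ (2 * q) ≤ (4 * Q) ^ (2 * q) :=
      pow_le_pow_left₀ (by linarith) (by linarith) _
    exact mul_le_mul_of_nonneg_left h6 (by positivity)
  have mw : ∀ z : ℝ, |z| ≤ 10 → |z + w| ≤ 10 →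
      ∫ t in (3 * T / 4)..(3 * T), (sg N (t + (z + w)) - sg N (t + z)) ^ (2 * (2 * q)) ≤
        C2 * T * (4 * Q) ^ (2 * q) := by
    intro z hz hzw
    refine (hmom T hTT2 (z + w) z hzw hz).trans ?_
    have e : |z + w - z| * L = 2 * Real.pi := by
      rw [add_sub_cancel_left, abs_of_pos hw0, hwdef]
      field_simp
    rw [e]
    have h1 : Real.log (1 + 2 * Real.pi) ≤ 3 := by
      rw [Real.log_le_iff_le_exp (by positivity)]
      have h2 : (2.7:ℝ) ≤ Real.exp 1 := by linarith [Real.exp_one_gt_d9]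
      have h3 : Real.exp 3 = Real.exp 1 ^ 3 := by rw [← Real.exp_nat_mul]; norm_num
      rw [h3]
      have h4 : (2.7:ℝ) ^ 3 ≤ Real.exp 1 ^ 3 := pow_le_pow_left₀ (by norm_num) h2 3
      norm_num at h4 ⊢
      linarith
    have h5 : 0 ≤ Real.log (1 + 2 * Real.pi) := Real.log_nonneg (by linarith)
    have h6 : (1 + Real.log (1 + 2 * Real.pi)) ^ (2 * q) ≤ (4 * Q) ^ (2 * q) :=
      pow_le_pow_left₀ (by linarith) (by linarith) _
    exact mul_le_mul_of_nonneg_left h6 (by positivity)
  have m2 := mw y hy10 hyw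
  have m3 := mw x hx10 hxw
  have hFint : ∫ t in (3 * T / 4)..(3 * T), F t ≤ K1 * T * Q ^ (2 * q) := by
    have e : ∫ t in (3 * T / 4)..(3 * T), F t = 4 ^ (4 * q + 1) *
        ((∫ t in (3 * T / 4)..(3 * T), a t ^ (2 * (2 * q))) +
        (∫ t in (3 * T / 4)..(3 * T), b t ^ (2 * (2 * q))) +
        (∫ t in (3 * T / 4)..(3 * T), c t ^ (2 * (2 * q))) +
        (3 * T - 3 * T / 4) * 8 ^ (2 * (2 * q))) := by
      rw [hF]
      simp only
      rw [intervalIntegral.integral_const_mul, intervalIntegral.integral_add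
        (((toII ia).add (toII ib)).add (toII ic)) (toII (hcon _)), intervalIntegral.integral_add
        ((toII ia).add (toII ib)) (toII ic), intervalIntegral.integral_add (toII ia) (toII ib),
        intervalIntegral.integral_const, smul_eq_mul]
    rw [e]
    have hQp : 1 ≤ Q ^ (2 * q) := one_le_pow₀ hQ1
    have hT0 : 0 ≤ T := by linarith
    have e3 : C2 * T * (4 * Q) ^ (2 * q) = C2 * 4 ^ (2 * q) * (T * Q ^ (2 * q)) := by
      rw [mul_pow]; ring
    rw [e3] at m1 m2 m3
    have h8 : (3 * T - 3 * T / 4) * 8 ^ (2 * (2 * q)) ≤ 8 ^ (2 * (2 * q)) * 3 * (T * Q ^ (2 * q)) := by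
      have h9 : (0:ℝ) ≤ 8 ^ (2 * (2 * q)) := by positivity
      have h10 : T ≤ T * Q ^ (2 * q) := le_mul_of_one_le_right hT0 hQp
      nlinarith
    calc _ ≤ 4 ^ (4 * q + 1) * (C2 * 4 ^ (2 * q) * (T * Q ^ (2 * q)) +
          C2 * 4 ^ (2 * q) * (T * Q ^ (2 * q)) + C2 * 4 ^ (2 * q) * (T * Q ^ (2 * q)) +
          8 ^ (2 * (2 * q)) * 3 * (T * Q ^ (2 * q))) :=
          mul_le_mul_of_nonneg_left (by linarith) (by positivity)
      _ = K1 * T * Q ^ (2 * q) := by rw [hK1]; ring
  have hsq : Real.sqrt (∫ t in (3 * T / 4)..(3 * T), f t ^ 2) ≤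
      Real.sqrt K1 * Real.sqrt T * Q ^ q := by
    have h1 : ∫ t in (3 * T / 4)..(3 * T), f t ^ 2 ≤ K1 * T * Q ^ (2 * q) :=
      (intervalIntegral.integral_mono_on h34 (toII hf2i) (toII hFi) fun t _ => hfF t).trans hFint
    have hT0 : 0 ≤ T := by linarith
    have hQ0 : 0 ≤ Q := by linarith
    refine (Real.sqrt_le_sqrt h1).trans (le_of_eq ?_)
    rw [Real.sqrt_mul (by positivity), Real.sqrt_mul hK1pos.le]
    congr 1
    rw [show Q ^ (2 * q) = (Q ^ q) ^ 2 by rw [← pow_mul]; congr 1; ring,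
      Real.sqrt_sq (by positivity)]
  have hPA := hpu T hTT3 f hf0 hfm.aestronglyMeasurable hf2i
  -- the sum
  have hsum : ∑ n ∈ Finset.Ioc (N T) (N (2 * T)), (sg N (g n + y) - sg N (g n + x)) ^ (2 * q) ≤
      PA N g T w (fun _ t => f t) := by
    unfold PA
    refine Finset.sum_le_sum fun n hn => ?_
    rw [Finset.mem_Ioc] at hn
    have hn1 : 1 ≤ n := by omega
    have hg2 : g n ≤ 2 * T := (hcnt.gc n hn1 _).2 hn.2
    have hg1 : T < g n := by
      by_contra hcon
      have := (hcnt.gc n hn1 T).1 (not_lt.1 hcon)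
      omega
    have hpt : ∀ t ∈ Icc (g n - w) (g n),
        (sg N (g n + y) - sg N (g n + x)) ^ (2 * q) ≤ f t := by
      intro t ht
      have p1 := point hcnt.mono hT40 hw7 ht.1 ht.2 hg1 hg2 hy1
      have p2 := point hcnt.mono hT40 hw7 ht.1 ht.2 hg1 hg2 hx1
      have p3 : |sg N (g n + y) - sg N (g n + x)| ≤ |a t| + |b t| + |c t| + 8 := by
        have e : sg N (g n + y) - sg N (g n + x) = (sg N (t + y) - sg N (t + x)) +
            (sg N (g n + y) - sg N (t + y)) - (sg N (g n + x) - sg N (t + x)) := by ring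
        rw [e]
        refine (abs_sub _ _).trans ?_
        have := abs_add_le (sg N (t + y) - sg N (t + x)) (sg N (g n + y) - sg N (t + y))
        simp only [ha, hb, hc]
        linarith
      calc (sg N (g n + y) - sg N (g n + x)) ^ (2 * q) =
            |sg N (g n + y) - sg N (g n + x)| ^ (2 * q) := by
            rw [pow_mul, pow_mul, sq_abs]
        _ ≤ (|a t| + |b t| + |c t| + 8) ^ (2 * q) := pow_le_pow_left₀ (abs_nonneg _) p3 _
        _ ≤ 4 ^ (2 * q) * (|a t| ^ (2 * q) + |b t| ^ (2 * q) + |c t| ^ (2 * q) + 8 ^ (2 * q)) :=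
            pow4 _ (abs_nonneg _) (abs_nonneg _) (abs_nonneg _) (by norm_num)
        _ = f t := by
            rw [hf]
            simp only [pow_mul, sq_abs]
    have hfn : IntervalIntegrable f volume (g n - w) (g n) := by
      rw [intervalIntegrable_iff_integrableOn_Icc_of_le (by linarith)]
      exact hfi.mono_set (Icc_subset_Icc (by linarith) (by linarith))
    have h1 := intervalIntegral.integral_mono_on (by linarith : g n - w ≤ g n)
      (intervalIntegrable_const (c := (sg N (g n + y) - sg N (g n + x)) ^ (2 * q))) hfn hpt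
    rw [intervalIntegral.integral_const, smul_eq_mul, sub_sub_cancel] at h1
    rw [one_div, inv_mul_eq_div, le_div_iff₀ hw0, mul_comm]
    exact h1
  refine hsum.trans (hPA.trans ?_)
  calc C3 * L * Real.sqrt T * Real.sqrt (∫ t in (3 * T / 4)..(3 * T), f t ^ 2) ≤
        C3 * L * Real.sqrt T * (Real.sqrt K1 * Real.sqrt T * Q ^ q) :=
        mul_le_mul_of_nonneg_left hsq (by positivity)
    _ = C3 * Real.sqrt K1 * ((Real.sqrt T * Real.sqrt T) * L) * Q ^ q := by ring
    _ = C3 * Real.sqrt K1 * (T * L) * Q ^ q := by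
        rw [Real.mul_self_sqrt (by linarith)]

end Pool.Agent.U608.MV5.KM
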